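import Pool.Agent.H685R2.VST.Final3

/-!
Vertex Steiner Tree (with binary coded positive rational vertex weights) can be solved in
polynomial time on `(K_{1,3}, P_t)`-free graphs, for every `t`.

The algorithm. Let `v₁` be a terminal. A vertex `v₂` in `N(v₁)` with neighbours in a component `C₁`
of `G - N[v₁]` has a clique `B₂ = N(v₂) ∩ C₁` as its neighbourhood in `C₁`; for a component `C₂` of
`C₁ - B₂` choose `v₃ ∈ B₂` with a neighbour in `C₂`, and so on. The vertices `v₁, v₂, …` form an
induced path, so the recursion has depth less than `t`, and all bags `B_j` are cliques. A state
consists of the current component `C`, the vertices attached to it, a bounded number of portals
(sets of vertices: the cliques `B_j` and the neighbourhoods of bounded parts of the solution) and a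
set of pairs of portals that have to be connected. The vertices which do not see the remaining
components (inner vertices) are guessed: in an inclusion-minimal solution every Steiner vertex is a
cut vertex, so the number of inner Steiner vertices is bounded in terms of the independence number
of the union of the bags, which is at most `t + 2`. By claw-freeness every other vertex is attached
to only one of the remaining components, and vertices attached to different components are adjacent
only if they share a portal. Hence, after the required connections have been distributed among the
components (a polynomial number of guesses), the components can be treated independently.
-/

namespace Pool.Agent.Results.MP_5be563_lc.ClawPathPoly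

open Pool.Agent.NPC Pool.Agent.H685R2.VST

/-- For every `t`, Vertex Steiner Tree restricted to graphs with no induced `K_{1,3}` and no
induced `P_t` is in P. -/
theorem result (t : ℕ) : InPP (VSTClawPath t) :=
  Pool.Agent.NPC.H685VST.vst_inPP t

end Pool.Agent.Results.MP_5be563_lc.ClawPathPoly
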